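import Pool.Agent.R550.HSGap
import Pool.Agent.H569R2.VDel.Main
import Pool.Agent.NPC.Classes

set_option autoImplicit false

/-!
# Set Cover (with an output of the cover) has no constant-factor approximation unless `P = NP`

The sets of the instance are the vertices of the hypergraphs of the gap theorem for Hitting Set
(`Pool/Agent/R550/HSGap.lean`), the elements are the hyperedges.
-/

namespace Pool.Agent.T6.H89.SCGap

open Pool.Agent.NPC Pool.Agent.R550.HS Pool.Agent.H569R2.VDel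

/-- the set of the indices of the hyperedges containing the vertex `a` -/
def star (H : List (List ℕ)) (a : ℕ) : List ℕ :=
  (List.range H.length).filter fun j => decide (a ∈ H.getD j [])

/-- the instance of Set Cover -/
def sc (N : ℕ) (H : List (List ℕ)) : List (List ℕ) := (List.range N).map (star H)

theorem mem_star {H : List (List ℕ)} {a j : ℕ} :
    j ∈ star H a ↔ ∃ h : j < H.length, a ∈ H[j] := by
  simp only [star, List.mem_filter, List.mem_range, decide_eq_true_eq]
  constructor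
  · rintro ⟨h1, h2⟩
    refine ⟨h1, ?_⟩
    simpa [List.getD_eq_getElem?_getD, List.getElem?_eq_getElem h1] using h2
  · rintro ⟨h1, h2⟩
    refine ⟨h1, ?_⟩
    simpa [List.getD_eq_getElem?_getD, List.getElem?_eq_getElem h1] using h2

theorem mem_sc {N : ℕ} {H : List (List ℕ)} {s : List ℕ} :
    s ∈ sc N H ↔ ∃ a < N, star H a = s := by
  simp [sc]

/-- a hitting set gives a cover of the same size -/
theorem cover_of_hits {N : ℕ} {H : List (List ℕ)} (hlt : ∀ C ∈ H, ∀ a ∈ C, a < N)
    {X : Finset ℕ} (hX : Hits X H) : ∃ C, IsCover (sc N H) C ∧ C.length ≤ X.card := by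
  refine ⟨((X.filter fun a => a < N).toList).map (star H), ⟨?_, ?_⟩, ?_⟩
  · intro s hs
    obtain ⟨a, ha, rfl⟩ := List.mem_map.1 hs
    rw [Finset.mem_toList, Finset.mem_filter] at ha
    exact mem_sc.2 ⟨a, ha.2, rfl⟩
  · intro s hs j hj
    obtain ⟨b, _, rfl⟩ := mem_sc.1 hs
    obtain ⟨hjl, _⟩ := mem_star.1 hj
    obtain ⟨a, ha, haX⟩ := hX _ (List.getElem_mem hjl)
    refine ⟨star H a, List.mem_map.2 ⟨a, ?_, rfl⟩, mem_star.2 ⟨hjl, ha⟩⟩
    rw [Finset.mem_toList, Finset.mem_filter]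
    exact ⟨haX, hlt _ (List.getElem_mem hjl) a ha⟩
  · rw [List.length_map, Finset.length_toList]
    exact Finset.card_filter_le _ _

/-- a cover gives a hitting set of at most the same size -/
theorem hits_of_cover {N : ℕ} {H : List (List ℕ)} (hlt : ∀ C ∈ H, ∀ a ∈ C, a < N)
    (hne : ∀ C ∈ H, C ≠ []) {C : List (List ℕ)} (hC : IsCover (sc N H) C) :
    ∃ X : Finset ℕ, Hits X H ∧ X.card ≤ C.length := by
  classical
  have h1 : ∀ s : List ℕ, ∃ a : ℕ, s ∈ C → star H a = s := by
    intro s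
    by_cases hs : s ∈ C
    · obtain ⟨a, _, ha⟩ := mem_sc.1 (hC.1 s hs)
      exact ⟨a, fun _ => ha⟩
    · exact ⟨0, fun h => absurd h hs⟩
  choose pick hpick using h1
  refine ⟨(C.map pick).toFinset, ?_, ?_⟩
  · intro c hc
    obtain ⟨j, hj, rfl⟩ := List.getElem_of_mem hc
    obtain ⟨a, ha⟩ := List.exists_mem_of_ne_nil _ (hne _ hc)
    have h2 : star H a ∈ sc N H := mem_sc.2 ⟨a, hlt _ hc a ha, rfl⟩
    obtain ⟨s', hs', hjs⟩ := hC.2 _ h2 j (mem_star.2 ⟨hj, ha⟩)
    rw [← hpick s' hs'] at hjs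
    obtain ⟨_, hm⟩ := mem_star.1 hjs
    exact ⟨pick s', hm, by
      rw [List.mem_toFinset]
      exact List.mem_map.2 ⟨s', hs', rfl⟩⟩
  · exact (List.toFinset_card_le _).trans (List.length_map _).le

variable {α : Type} [TEnc α]

theorem poly_sc {N : α → ℕ} {H : α → List (List ℕ)} (hN : UPoly N) (hH : NPC.Poly H) :
    NPC.Poly (fun a => sc (N a) (H a)) := by
  unfold sc
  refine NPC.Poly.map (F := fun a v => star (H a) v) hN.range ?_
  unfold star
  have hR : NPC.Poly (fun p : α × ℕ => List.range (H p.1).length) :=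
    (UPoly.length (hH.comp (Poly.fst Poly.id))).range
  refine Poly.filter (p := fun (p : α × ℕ) j => decide (p.2 ∈ (H p.1).getD j [])) hR ?_
  have h1 : NPC.Poly (fun q : (α × ℕ) × ℕ => H q.1.1) := hH.comp (Poly.fst (Poly.fst Poly.id))
  exact Poly.decide_mem (Poly.snd (Poly.fst Poly.id))
    (Poly.getD (d := fun _ => ([] : List ℕ)) h1 (Poly.snd Poly.id) (NPC.Poly.const _))

/-- **The gap theorem for Set Cover.** -/
theorem gapSC (c : ℕ) {L : Set (List Bool)} (hL : InNP L) :
    ∃ (f : List Bool → List (List ℕ)) (k : List Bool → ℕ), NPC.Poly (fun x => (f x, k x)) ∧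
      ∀ x, 0 < k x ∧ (x ∈ L → ∃ C, IsCover (f x) C ∧ C.length ≤ k x) ∧
        (x ∉ L → ∀ C, IsCover (f x) C → c * k x < C.length) := by
  obtain ⟨t, ht, h⟩ := gap c
  obtain ⟨m, H, hm, hH, hx⟩ := h hL
  refine ⟨fun x => sc ((3 * m x) ^ t) (H x), fun x => (2 * m x) ^ t, ?_, fun x => ?_⟩
  · exact Poly.pair (poly_sc (uPoly_powc (UPoly.mul (UPoly.const 3) hm) t) hH)
      (poly_powc (Poly.mul (NPC.Poly.const 2) hm.toPoly) t)
  · obtain ⟨h1, h2, h3, h4, h5, h6, h7⟩ := hx x
    refine ⟨by positivity, fun hxL => ?_, fun hxL C hC => ?_⟩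
    · obtain ⟨X, hX, hXc⟩ := h6 hxL
      obtain ⟨C, hC, hCl⟩ := cover_of_hits h3 hX
      exact ⟨C, hC, hCl.trans hXc⟩
    · obtain ⟨X, hX, hXc⟩ := hits_of_cover h3 (fun C hC h => by
        have := h2 C hC
        rw [h, List.length_nil] at this
        have h8 : 0 < 2 ^ t := by positivity
        omega) hC
      exact (h7 hxL X hX).trans_le hXc

/-- A polynomial-time constant-factor approximation algorithm for Set Cover gives `P = NP`. -/
theorem inP_of_scApprox {β : ℝ} (h : SCApprox β) {L : Set (List Bool)} (hL : InNP L) : InP L := by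
  obtain ⟨F, hF, hFs⟩ := h
  obtain ⟨f, k, hfk, hx⟩ := gapSC ⌈β⌉₊ hL
  have hf : NPC.Poly f := Poly.fst hfk
  have hk : NPC.Poly k := Poly.snd hfk
  let d : List Bool → Bool := fun x => (unbits (List (List ℕ)) (F (bits (f x)))).any
    fun S => decide (S.length ≤ ⌈β⌉₊ * k x)
  have hd : NPC.Poly d := by
    refine Poly.optAny_fp (o := fun x => unbits (List (List ℕ)) (F (bits (f x))))
      (h := fun x S => decide (S.length ≤ ⌈β⌉₊ * k x)) ?_ ?_
    · exact poly_unbits.comp ((Pool.Agent.H569R2.poly_of_polyTime hF).comp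
        (Pool.Agent.H569R2.poly_bits.comp hf))
    · have hk' : NPC.Poly (fun p : List Bool × List (List ℕ) => k p.1) :=
        hk.comp (Poly.fst Poly.id)
      exact Poly.decide_le (Poly.length (Poly.snd Poly.id)) (Poly.mul (NPC.Poly.const _) hk')
  refine ⟨fun x => [d x], polyTime_of_poly hd, fun x => ?_⟩
  have hdx : [d x] = [true] ↔ d x = true := by simp
  rw [hdx]
  obtain ⟨_, h2, h3⟩ := hx x
  obtain ⟨S, hS1, hS2, hS3⟩ := hFs (f x)
  have hdS : d x = true ↔ S.length ≤ ⌈β⌉₊ * k x := by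
    simp only [d]
    rw [hS1, unbits_bits]
    simp
  rw [hdS]
  constructor
  · intro hxL
    obtain ⟨C, hC, hCl⟩ := h2 hxL
    have e2 : (S.length : ℝ) ≤ ⌈β⌉₊ * k x := by
      calc (S.length : ℝ) ≤ β * C.length := hS3 C hC
        _ ≤ ⌈β⌉₊ * C.length := mul_le_mul_of_nonneg_right (Nat.le_ceil β) (by positivity)
        _ ≤ ⌈β⌉₊ * k x := mul_le_mul_of_nonneg_left (by exact_mod_cast hCl) (by positivity)
    exact_mod_cast e2
  · intro hle
    by_contra hxL
    have e1 := h3 hxL S hS2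
    omega

end Pool.Agent.T6.H89.SCGap
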