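import Pool.Agent.T6.H89.SCGap

set_option autoImplicit false

/-!
# min-Cost-VERTEX-DEL has no constant-factor approximation unless `P = NP`

The gap of `Pool/Agent/T6/H89/SCGap.lean` is transported along the reduction of
`Pool/Agent/H569R2/VDel/Red.lean`.
-/

namespace Pool.Agent.T6.H89.VDGap

open Pool.Agent.NPC Pool.Agent.H569R2.VDel Pool.Agent.T6.H89.SCGap

/-- **The gap theorem for min-Cost-VERTEX-DEL with two costs.** -/
theorem gapVD (c : ℕ) {L : Set (List Bool)} (hL : InNP L) :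
    ∃ (f : List Bool → Inst) (k : List Bool → ℕ), NPC.Poly (fun x => (f x, k x)) ∧
      ∀ x, TwoCosts (f x) ∧ 0 < k x ∧
        (x ∈ L → ∃ S, Feasible (f x) S ∧ cost (f x) S ≤ k x) ∧
        (x ∉ L → ∀ S, Feasible (f x) S → c * k x < cost (f x) S) := by
  obtain ⟨g, k, hgk, hx⟩ := gapSC (2 * c) hL
  have hg : NPC.Poly g := Poly.fst hgk
  have hk : NPC.Poly k := Poly.snd hgk
  refine ⟨fun x => red 1 (c + 1) (g x), fun x => NN 1 (g x) * k x, ?_, fun x => ?_⟩
  · exact Poly.pair ((poly_red 1 (c + 1)).comp hg)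
      (Poly.mul ((uPoly_NN 1).toPoly.comp hg) hk)
  obtain ⟨h1, h2, h3⟩ := hx x
  have hn := nn_lt_NN 1 (g x)
  have hN : NN 1 (g x) = 2 * (nn (g x) + 1) := by unfold NN; ring
  refine ⟨twoCosts_red 1 (c + 1) (g x), Nat.mul_pos (by omega) h1, fun hxL => ?_,
    fun hxL S hS => ?_⟩
  · obtain ⟨C, hC, hCl⟩ := h2 hxL
    obtain ⟨S, hS, hc⟩ := feasible_of_cover 1 (c + 1) (g x) hC
    exact ⟨S, hS, hc.trans (Nat.mul_le_mul_left _ hCl)⟩
  · by_cases hb : cost (red 1 (c + 1) (g x)) S < big 1 (c + 1) (g x)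
    · have h4 := h3 hxL _ (isCover_back 1 (c + 1) (g x) hS (no_big 1 (c + 1) (g x) hb))
      have h5 := le_cost 1 (c + 1) (g x) (by omega) S
      refine lt_of_lt_of_le ?_ h5
      have h6 : NN 1 (g x) ≤ 2 * (NN 1 (g x) - nn (g x)) := by omega
      have h7 : 0 < NN 1 (g x) - nn (g x) := by omega
      calc c * (NN 1 (g x) * k x) = NN 1 (g x) * (c * k x) := by ring
        _ ≤ 2 * (NN 1 (g x) - nn (g x)) * (c * k x) := Nat.mul_le_mul_right _ h6
        _ = (NN 1 (g x) - nn (g x)) * (2 * c * k x) := by ring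
        _ < (NN 1 (g x) - nn (g x)) * (back 1 (g x, S)).length := Nat.mul_lt_mul_of_pos_left h4 h7
    · have h4 : IsCover (g x) (g x) := ⟨fun s hs => hs, fun s hs x hx => ⟨s, hs, hx⟩⟩
      have h5 := h3 hxL _ h4
      rw [not_lt] at hb
      refine lt_of_lt_of_le ?_ hb
      unfold big
      have h6 : c * k x ≤ 2 * c * k x := by nlinarith
      have h7 : NN 1 (g x) * (c * k x) ≤ NN 1 (g x) * (g x).length :=
        Nat.mul_le_mul_left _ (by omega)
      have h8 : NN 1 (g x) * (g x).length + 1 ≤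
          (c + 1) * (NN 1 (g x) * (g x).length + 1) := Nat.le_mul_of_pos_left _ (by omega)
      calc c * (NN 1 (g x) * k x) = NN 1 (g x) * (c * k x) := by ring
        _ < (c + 1) * (NN 1 (g x) * (g x).length + 1) := by omega

end Pool.Agent.T6.H89.VDGap
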